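import Pool.Agent.TH693.CT.Stm

set_option autoImplicit false

/-!
# The number of solutions of `u ^ 2 - 2 v ^ 2 = 1` in a box
-/

namespace Pool.Agent.TH693.CT

open Finset

/-- the solutions of `u ^ 2 - 2 v ^ 2 = 1` in natural numbers -/
def c1s : ℕ → ℤ × ℤ
  | 0 => (1, 0)
  | n + 1 => (3 * (c1s n).1 + 4 * (c1s n).2, 2 * (c1s n).1 + 3 * (c1s n).2)

theorem c1s_pos (n : ℕ) : (2 : ℤ) ^ n ≤ (c1s n).1 ∧ 0 ≤ (c1s n).2 := by
  induction n with
  | zero => simp [c1s]
  | succ n ih =>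
    obtain ⟨h1, h2⟩ := ih
    have h3 : (0 : ℤ) < 2 ^ n := by positivity
    refine ⟨?_, ?_⟩
    · show (2 : ℤ) ^ (n + 1) ≤ 3 * (c1s n).1 + 4 * (c1s n).2
      rw [pow_succ]
      linarith
    · show 0 ≤ 2 * (c1s n).1 + 3 * (c1s n).2
      linarith

theorem c1s_all (N : ℕ) : ∀ u v : ℤ, 0 < u → 0 ≤ v → v ≤ N → u ^ 2 - 2 * v ^ 2 = 1 →
    ∃ n, (u, v) = c1s n := by
  induction N with
  | zero =>
    intro u v hu hv hN h
    have hv0 : v = 0 := by
      push_cast at hN
      linarith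
    subst hv0
    refine ⟨0, ?_⟩
    have : u = 1 := by nlinarith
    rw [this]
    rfl
  | succ N ih =>
    intro u v hu hv hN h
    rcases hv.eq_or_lt with h0 | h0
    · subst h0
      refine ⟨0, ?_⟩
      have : u = 1 := by nlinarith
      rw [this]
      rfl
    have hv2 : 2 ≤ v := by
      by_contra hcon
      push Not at hcon
      have hv1 : v = 1 := by omega
      subst hv1
      have h3 : u ^ 2 = 3 := by linarith
      have h4 : u < 2 := by nlinarith
      have h5 : u = 1 := by omega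
      rw [h5] at h3
      norm_num at h3
    have hu' : 0 < 3 * u - 4 * v := by nlinarith
    have hv' : 0 ≤ 3 * v - 2 * u := by nlinarith
    have hlt : v < u := by nlinarith
    push_cast at hN
    obtain ⟨n, hn⟩ := ih (3 * u - 4 * v) (3 * v - 2 * u) hu' hv' (by linarith)
      (by linear_combination h)
    refine ⟨n + 1, ?_⟩
    show (u, v) = (3 * (c1s n).1 + 4 * (c1s n).2, 2 * (c1s n).1 + 3 * (c1s n).2)
    rw [← hn]
    simp only [Prod.mk.injEq]
    constructor <;> ring

theorem sc1 : SC1 := by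
  classical
  refine ⟨4, fun U hU => ?_⟩
  have hsub : Sol 1 U ⊆ ((range (Nat.log 2 U + 1)) ×ˢ (({1, -1} : Finset ℤ) ×ˢ ({1, -1} : Finset ℤ))).image
      (fun q => (q.2.1 * (c1s q.1).1, q.2.2 * (c1s q.1).2)) := by
    rintro ⟨a, b⟩ hp
    unfold Sol at hp
    rw [mem_filter, mem_product, mem_Icc, mem_Icc] at hp
    obtain ⟨⟨⟨ha1, ha2⟩, -⟩, hab⟩ := hp
    simp only at ha1 ha2 hab
    have ha0 : 0 < |a| := by
      rw [abs_pos]
      rintro rfl
      nlinarith [sq_nonneg b]
    obtain ⟨n, hn⟩ := c1s_all |b|.toNat |a| |b| ha0 (abs_nonneg b)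
      (by rw [Int.toNat_of_nonneg (abs_nonneg b)]) (by rw [sq_abs, sq_abs]; exact hab)
    have h1 : |a| = (c1s n).1 := by rw [← hn]
    have h2 : |b| = (c1s n).2 := by rw [← hn]
    have h3 : n ≤ Nat.log 2 U := by
      apply Nat.le_log_of_pow_le one_lt_two
      have h4 := (c1s_pos n).1
      have h5 : |a| ≤ U := abs_le.mpr ⟨ha1, ha2⟩
      rw [← h1] at h4
      exact_mod_cast h4.trans h5
    have hs : ∀ z : ℤ, ∃ t ∈ ({1, -1} : Finset ℤ), z = t * |z| := by
      intro z
      rcases abs_choice z with h | h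
      · exact ⟨1, by simp, by rw [one_mul, h]⟩
      · exact ⟨-1, by simp, by rw [h]; ring⟩
    obtain ⟨t1, ht1, e1⟩ := hs a
    obtain ⟨t2, ht2, e2⟩ := hs b
    rw [mem_image]
    refine ⟨(n, (t1, t2)), ?_, ?_⟩
    · rw [mem_product, mem_product, mem_range]
      exact ⟨by omega, ht1, ht2⟩
    · simp only [Prod.mk.injEq]
      rw [← h1, ← h2]
      exact ⟨e1.symm, e2.symm⟩
  refine (card_le_card hsub).trans (card_image_le.trans ?_)
  rw [card_product, card_product, card_range]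
  have : ({1, -1} : Finset ℤ).card = 2 := by decide
  rw [this]
  omega

end Pool.Agent.TH693.CT
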