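import Pool.Agent.TH693.CT.Stm

set_option autoImplicit false

/-!
# Primitive solutions of `a^2 - 2 b^2 = D`: at most `d(D)` classes, each of at most the number of units
-/

namespace Pool.Agent.TH693.CT

open Finset

theorem c2_cop {a b D : ℤ} (hD : Odd D) (h : a ^ 2 - 2 * b ^ 2 = D) (hg : Int.gcd a b = 1) :
    IsCoprime (2 : ℤ) D ∧ IsCoprime a D ∧ IsCoprime b D := by
  have hab : IsCoprime a b := Int.isCoprime_iff_gcd_eq_one.2 hg
  obtain ⟨k, hk⟩ := hD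
  have h2D : IsCoprime (2 : ℤ) D := ⟨-k, 1, by rw [hk]; ring⟩
  have h2a2 : IsCoprime (2 : ℤ) (a ^ 2) := ⟨-k - b ^ 2, 1, by linear_combination h + hk⟩
  have h2a : IsCoprime (2 : ℤ) a := h2a2.of_isCoprime_of_dvd_right (dvd_pow_self a two_ne_zero)
  refine ⟨h2D, ?_, ?_⟩
  · have h1 : IsCoprime a (-(2 * b ^ 2)) := (h2a.symm.mul_right hab.pow_right).neg_right
    have h2 := h1.add_mul_left_right a
    rwa [show -(2 * b ^ 2) + a * a = D by linear_combination h] at h2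
  · have h1 : IsCoprime b (a ^ 2) := hab.symm.pow_right
    have h2 := h1.add_mul_left_right (-(2 * b))
    rwa [show a ^ 2 + b * -(2 * b) = D by linear_combination h] at h2

theorem c2_e {a b a0 b0 D g e : ℤ} (hD0 : D ≠ 0) (h : a ^ 2 - 2 * b ^ 2 = D)
    (h0 : a0 ^ 2 - 2 * b0 ^ 2 = D) (hg : g = (Int.gcd (a * b0 - a0 * b) D : ℤ)) (hDe : D = g * e) :
    g ∣ a * b0 - a0 * b ∧ e ∣ a * b0 + a0 * b := by
  have hgx : g ∣ a * b0 - a0 * b := by rw [hg]; exact Int.gcd_dvd_left ..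
  refine ⟨hgx, ?_⟩
  obtain ⟨x1, hx1⟩ := hgx
  have hg0 : g ≠ 0 := by
    rintro rfl
    exact hD0 (by rw [hDe, zero_mul])
  have hbez := Int.gcd_eq_gcd_ab (a * b0 - a0 * b) D
  rw [← hg] at hbez
  have hco : IsCoprime e x1 := by
    refine ⟨Int.gcdB (a * b0 - a0 * b) D, Int.gcdA (a * b0 - a0 * b) D, ?_⟩
    apply mul_left_cancel₀ hg0
    generalize Int.gcdB (a * b0 - a0 * b) D = B at *
    generalize Int.gcdA (a * b0 - a0 * b) D = C at *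
    rw [hx1] at hbez
    linear_combination -hbez - B * hDe
  apply hco.dvd_of_dvd_mul_left
  have hp : g * (x1 * (a * b0 + a0 * b)) = g * (e * (b0 ^ 2 - b ^ 2)) := by
    linear_combination (-(a * b0 + a0 * b)) * hx1 + b0 ^ 2 * h - b ^ 2 * h0 + (b0 ^ 2 - b ^ 2) * hDe
  exact ⟨_, mul_left_cancel₀ hg0 hp⟩

theorem c2_class {a b a' b' a0 b0 D : ℤ} (hD : Odd D) (h : a ^ 2 - 2 * b ^ 2 = D)
    (hg : Int.gcd a b = 1) (h' : a' ^ 2 - 2 * b' ^ 2 = D)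
    (h0 : a0 ^ 2 - 2 * b0 ^ 2 = D) (hg0 : Int.gcd a0 b0 = 1)
    (hgg : Int.gcd (a * b0 - a0 * b) D = Int.gcd (a' * b0 - a0 * b') D) :
    D ∣ a * b' - a' * b := by
  have hD0 : D ≠ 0 := by
    rintro rfl
    exact absurd hD (by decide)
  obtain ⟨h2D, haD, hbD⟩ := c2_cop hD h hg
  obtain ⟨-, ha0D, hb0D⟩ := c2_cop hD h0 hg0
  obtain ⟨g, hgdef⟩ : ∃ g : ℤ, g = (Int.gcd (a * b0 - a0 * b) D : ℤ) := ⟨_, rfl⟩
  have hgdef' : g = (Int.gcd (a' * b0 - a0 * b') D : ℤ) := by rw [hgdef, hgg]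
  have hgD : g ∣ D := by rw [hgdef]; exact Int.gcd_dvd_right ..
  obtain ⟨e, he⟩ := hgD
  obtain ⟨hx, hy⟩ := c2_e hD0 h h0 hgdef he
  obtain ⟨hx', hy'⟩ := c2_e hD0 h' h0 hgdef' he
  have hgD : g ∣ D := ⟨e, he⟩
  have heD : e ∣ D := ⟨g, by rw [he]; ring⟩
  have hco : IsCoprime g e := by
    have h1 : IsCoprime (2 * (a * b0)) D := h2D.mul_left (haD.mul_left hb0D)
    obtain ⟨α, β, hαβ⟩ := h1
    obtain ⟨x1, hx1⟩ := hx
    obtain ⟨y1, hy1⟩ := hy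
    refine ⟨α * x1 + β * e, α * y1, ?_⟩
    linear_combination hαβ - α * hx1 - α * hy1 - β * he
  have hb0g : IsCoprime g b0 := (hb0D.of_isCoprime_of_dvd_right hgD).symm
  have hb0e : IsCoprime e b0 := (hb0D.of_isCoprime_of_dvd_right heD).symm
  have h1 : g ∣ a * b' - a' * b := by
    apply hb0g.dvd_of_dvd_mul_left
    have : b0 * (a * b' - a' * b) = (a * b0 - a0 * b) * b' - (a' * b0 - a0 * b') * b := by ring
    rw [this]
    exact dvd_sub (hx.mul_right _) (hx'.mul_right _)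
  have h2 : e ∣ a * b' - a' * b := by
    apply hb0e.dvd_of_dvd_mul_left
    have : b0 * (a * b' - a' * b) = (a * b0 + a0 * b) * b' - (a' * b0 + a0 * b') * b := by ring
    rw [this]
    exact dvd_sub (hy.mul_right _) (hy'.mul_right _)
  rw [he]
  exact hco.mul_dvd h1 h2

/-- two solutions of one class differ by a unit -/
theorem c2_unit {a b a1 b1 D : ℤ} {A : ℕ} (hD : Odd D) (h : a ^ 2 - 2 * b ^ 2 = D)
    (h1 : a1 ^ 2 - 2 * b1 ^ 2 = D) (hg1 : Int.gcd a1 b1 = 1)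
    (ha : |a| ≤ A) (hb : |b| ≤ A) (ha1 : |a1| ≤ A) (hb1 : |b1| ≤ A)
    (hd : D ∣ a * b1 - a1 * b) :
    ∃ u v : ℤ, a * a1 - 2 * b * b1 = D * u ∧ a1 * b - a * b1 = D * v ∧ (u, v) ∈ Sol 1 (3 * A ^ 2) := by
  have hD0 : D ≠ 0 := by
    rintro rfl
    exact absurd hD (by decide)
  obtain ⟨-, -, hbD⟩ := c2_cop hD h1 hg1
  have hv : D ∣ a1 * b - a * b1 := by
    have := hd.neg_right
    rwa [neg_sub] at this
  have hu : D ∣ a * a1 - 2 * b * b1 := by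
    apply hbD.symm.dvd_of_dvd_mul_left
    obtain ⟨c, hc⟩ := hd
    refine ⟨a1 * c + b, ?_⟩
    linear_combination a1 * hc + b * h1
  obtain ⟨u, hu⟩ := hu
  obtain ⟨v, hv⟩ := hv
  refine ⟨u, v, hu, hv, ?_⟩
  have hD1 : 1 ≤ |D| := Int.one_le_abs hD0
  have hA0 : (0 : ℤ) ≤ A := Int.natCast_nonneg A
  have haa : |a * a1| ≤ (A : ℤ) * A := by
    rw [abs_mul]; exact mul_le_mul ha ha1 (abs_nonneg _) hA0
  have hbb : |b * b1| ≤ (A : ℤ) * A := by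
    rw [abs_mul]; exact mul_le_mul hb hb1 (abs_nonneg _) hA0
  have hab : |a * b1| ≤ (A : ℤ) * A := by
    rw [abs_mul]; exact mul_le_mul ha hb1 (abs_nonneg _) hA0
  have hba : |a1 * b| ≤ (A : ℤ) * A := by
    rw [abs_mul]; exact mul_le_mul ha1 hb (abs_nonneg _) hA0
  rw [abs_le] at haa hbb hab hba
  have hbu : |u| ≤ 3 * (A : ℤ) ^ 2 := by
    have h3 : |D| * |u| ≤ 3 * (A : ℤ) ^ 2 := by
      rw [← abs_mul, ← hu, abs_le]
      constructor <;> nlinarith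
    nlinarith [abs_nonneg u]
  have hbv : |v| ≤ 3 * (A : ℤ) ^ 2 := by
    have h3 : |D| * |v| ≤ 3 * (A : ℤ) ^ 2 := by
      rw [← abs_mul, ← hv, abs_le]
      constructor <;> nlinarith
    nlinarith [abs_nonneg v]
  rw [abs_le] at hbu hbv
  have hn : u ^ 2 - 2 * v ^ 2 = 1 := by
    have hDD : D ^ 2 ≠ 0 := pow_ne_zero 2 hD0
    apply mul_left_cancel₀ hDD
    have e1 : D ^ 2 * (u ^ 2 - 2 * v ^ 2) = (D * u) ^ 2 - 2 * (D * v) ^ 2 := by ring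
    rw [e1, ← hu, ← hv]
    have e2 : (a * a1 - 2 * b * b1) ^ 2 - 2 * (a1 * b - a * b1) ^ 2
      = (a ^ 2 - 2 * b ^ 2) * (a1 ^ 2 - 2 * b1 ^ 2) := by ring
    rw [e2, h, h1]
    ring
  simp only [Sol, Finset.mem_filter, Finset.mem_product, Finset.mem_Icc]
  push_cast
  exact ⟨⟨⟨hbu.1, hbu.2⟩, ⟨hbv.1, hbv.2⟩⟩, hn⟩

theorem mem_prim {D : ℤ} {A : ℕ} {p : ℤ × ℤ} (hp : p ∈ Prim D A) :
    |p.1| ≤ A ∧ |p.2| ≤ A ∧ p.1 ^ 2 - 2 * p.2 ^ 2 = D ∧ Int.gcd p.1 p.2 = 1 := by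
  simp only [Prim, Sol, Finset.mem_filter, Finset.mem_product, Finset.mem_Icc] at hp
  exact ⟨abs_le.2 hp.1.1.1, abs_le.2 hp.1.1.2, hp.1.2, hp.2⟩

theorem sc2 : SC2 := by
  intro D A hD
  have hD0 : D ≠ 0 := by
    rintro rfl
    exact absurd hD (by decide)
  rcases (Prim D A).eq_empty_or_nonempty with hE | ⟨p0, hp0⟩
  · rw [hE]; simp
  obtain ⟨-, -, h0, hg0⟩ := mem_prim hp0
  rw [mul_comm]
  refine Finset.card_le_mul_card_image_of_maps_to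
    (f := fun p : ℤ × ℤ => Int.gcd (p.1 * p0.2 - p0.1 * p.2) D) ?_ _ ?_
  · intro p _
    rw [Nat.mem_divisors]
    refine ⟨?_, Int.natAbs_ne_zero.2 hD0⟩
    have := Int.gcd_dvd_right (p.1 * p0.2 - p0.1 * p.2) D
    exact Int.natCast_dvd.1 this
  · intro g _
    rcases (Finset.filter (fun p : ℤ × ℤ => Int.gcd (p.1 * p0.2 - p0.1 * p.2) D = g)
      (Prim D A)).eq_empty_or_nonempty with hE | ⟨p1, hp1⟩
    · rw [hE]; simp
    rw [Finset.mem_filter] at hp1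
    obtain ⟨ha1, hb1, h1, hg1⟩ := mem_prim hp1.1
    have key : ∀ p ∈ Finset.filter (fun p : ℤ × ℤ => Int.gcd (p.1 * p0.2 - p0.1 * p.2) D = g)
        (Prim D A), ∃ q : ℤ × ℤ, p.1 * p1.1 - 2 * p.2 * p1.2 = D * q.1 ∧
          p1.1 * p.2 - p.1 * p1.2 = D * q.2 ∧ q ∈ Sol 1 (3 * A ^ 2) := by
      intro p hp
      rw [Finset.mem_filter] at hp
      obtain ⟨ha, hb, h, hg⟩ := mem_prim hp.1
      have hd : D ∣ p.1 * p1.2 - p1.1 * p.2 :=
        c2_class hD h hg h1 h0 hg0 (hp.2.trans hp1.2.symm)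
      obtain ⟨u, v, hu, hv, hm⟩ := c2_unit hD h h1 hg1 ha hb ha1 hb1 hd
      exact ⟨(u, v), hu, hv, hm⟩
    choose! q hq using key
    refine Finset.card_le_card_of_injOn q (fun p hp => (hq p hp).2.2) ?_
    intro p hp p' hp' hpp
    obtain ⟨e1, e2, -⟩ := hq p hp
    obtain ⟨e1', e2', -⟩ := hq p' hp'
    rw [hpp] at e1 e2
    have f1 : p.1 * p1.1 - 2 * p.2 * p1.2 = p'.1 * p1.1 - 2 * p'.2 * p1.2 := e1.trans e1'.symm
    have f2 : p1.1 * p.2 - p.1 * p1.2 = p1.1 * p'.2 - p'.1 * p1.2 := e2.trans e2'.symm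
    have g1 : D * p.1 = D * p'.1 := by
      rw [← h1]
      linear_combination p1.1 * f1 + 2 * p1.2 * f2
    have g2 : D * p.2 = D * p'.2 := by
      rw [← h1]
      linear_combination p1.2 * f1 + p1.1 * f2
    exact Prod.ext (mul_left_cancel₀ hD0 g1) (mul_left_cancel₀ hD0 g2)

end Pool.Agent.TH693.CT
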