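import Pool.Agent.TH693.CT.Stm

set_option autoImplicit false

/-!
# CT-B (job 5775, helper900): the identities for a pattern
-/

namespace Pool.Agent.TH693.CT

open Finset

namespace CTB

theorem KK_add {M : ℕ} (hM : 1 ≤ M) {n i L : ℕ} (hi : i ≤ L)
    (h : ∀ k : ℤ, ¬ (n < M * pentagonal k ∧ M * pentagonal k ≤ n + L)) :
    KK M (n + i) = KK M n := by
  ext k
  unfold KK
  rw [Finset.mem_filter, Finset.mem_filter, Finset.mem_Icc, Finset.mem_Icc]
  constructor
  · rintro ⟨-, h2⟩
    have h3 : M * pentagonal k ≤ n := by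
      by_contra hc
      exact h k ⟨not_le.1 hc, h2.trans (by omega)⟩
    have h4 := Pool.Agent.H397R2.PP.natAbs_le_pentagonal k
    have h5 : pentagonal k ≤ n := (Nat.le_mul_of_pos_left _ hM).trans h3
    have h6 : |k| ≤ (n : ℤ) := h4.trans (by exact_mod_cast h5)
    exact ⟨abs_le.1 h6, h3⟩
  · rintro ⟨⟨h1, h2⟩, h3⟩
    refine ⟨⟨?_, ?_⟩, h3.trans (Nat.le_add_right _ _)⟩
    · push_cast
      linarith
    · push_cast
      linarith

theorem expand {M : ℕ} (hM : 1 ≤ M) (L : ℕ) (c : Fin (L + 1) → ZMod 2) (n : ℕ)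
    (h : ∀ k : ℤ, ¬ (n < M * pentagonal k ∧ M * pentagonal k ≤ n + L)) :
    ∑ k ∈ KK M n, sv L c (n - M * pentagonal k) =
      ∑ i : Fin (L + 1), c i * ∑ k ∈ KK M (n + i), pm (n + i - M * pentagonal k) := by
  unfold sv
  rw [Finset.sum_comm]
  refine Finset.sum_congr rfl fun i _ => ?_
  have hi : (i : ℕ) ≤ L := Nat.lt_succ_iff.1 i.2
  rw [KK_add hM hi h, Finset.mul_sum]
  refine Finset.sum_congr rfl fun k hk => ?_
  have hk' : M * pentagonal k ≤ n := (Finset.mem_filter.1 hk).2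
  congr 2
  omega

end CTB

theorem sb1 : SA1 → SB1 := by
  intro hA L c n hn h
  have h1 := CTB.expand (M := 1) le_rfl L c n (by
    intro k
    rw [one_mul]
    exact h k)
  simp only [one_mul] at h1
  rw [h1]
  refine Finset.sum_eq_zero fun i _ => ?_
  rw [hA (n + i) (by omega), mul_zero]

theorem sb2 : SA2 → SB2 := by
  intro hA L c i0 hc m n hm h1 h2
  rw [CTB.expand (M := 2) (by norm_num) L c n h1, Finset.sum_eq_single i0]
  · rw [hm, hA.1 m, hc, one_mul]
  · intro i _ hi
    rw [hA.2 (n + i), mul_zero]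
    intro k hk
    by_cases hkm : k = m
    · subst hkm
      apply hi
      apply Fin.ext
      omega
    · have hi' : (i : ℕ) ≤ L := Nat.lt_succ_iff.1 i.2
      exact h2 k hkm ⟨by omega, by omega⟩
  · intro hi
    exact absurd (Finset.mem_univ _) hi

end Pool.Agent.TH693.CT
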