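import Pool.Agent.TH693.CT.Stm

set_option autoImplicit false

/-!
# CT-D0: zeros of a linear pattern of the partition function modulo 2
-/

namespace Pool.Agent.TH693.CT

open Finset

namespace D0

theorem pent_succ (j : ℕ) :
    pentagonal ((j : ℤ) + 1) = pentagonal (-(j : ℤ)) + (2 * j + 1) := by
  have h1 := two_mul_natCast_pentagonal ((j : ℤ) + 1)
  have h2 := two_mul_natCast_pentagonal_neg (j : ℤ)
  have h3 : (pentagonal ((j : ℤ) + 1) : ℤ) = pentagonal (-(j : ℤ)) + (2 * j + 1) := by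
    nlinarith
  exact_mod_cast h3

theorem le_pent {j : ℕ} {k : ℤ} (h1 : -(j : ℤ) ≤ k) (h2 : k ≤ j) :
    pentagonal k ≤ pentagonal (-(j : ℤ)) := by
  have h3 := two_mul_natCast_pentagonal k
  have h4 := two_mul_natCast_pentagonal_neg (j : ℤ)
  have h5 : k ^ 2 ≤ (j : ℤ) ^ 2 := sq_le_sq' h1 h2
  have h6 : (pentagonal k : ℤ) ≤ pentagonal (-(j : ℤ)) := by nlinarith
  exact_mod_cast h6

theorem gt_pent {j : ℕ} {k : ℤ} (h : k < -(j : ℤ) ∨ (j : ℤ) < k) :
    pentagonal (-(j : ℤ)) + (2 * j + 1) ≤ pentagonal k := by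
  have h3 := two_mul_natCast_pentagonal k
  have h4 := two_mul_natCast_pentagonal_neg (j : ℤ)
  have h6 : (pentagonal (-(j : ℤ)) : ℤ) + (2 * j + 1) ≤ pentagonal k := by
    rcases h with h | h
    · have h7 : (j : ℤ) + 1 ≤ -k := by omega
      nlinarith
    · have h7 : (j : ℤ) + 1 ≤ k := by omega
      nlinarith
  exact_mod_cast h6

theorem sep {j j' : ℕ} (h : j < j') :
    pentagonal (-(j : ℤ)) + (2 * j + 1) ≤ pentagonal (-(j' : ℤ)) :=
  gt_pent (Or.inl (by omega))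

theorem j_le (j : ℕ) : j ≤ pentagonal (-(j : ℤ)) := by
  have h4 := two_mul_natCast_pentagonal_neg (j : ℤ)
  have h6 : (j : ℤ) ≤ pentagonal (-(j : ℤ)) := by nlinarith
  exact_mod_cast h6

theorem key (hB : SB1) (L : ℕ) (c : Fin (L + 1) → ZMod 2) (p : ℕ × ℕ)
    (hp : 1 ≤ p.1 ∧ p.2 + L < 2 * p.1 + 1) :
    ∃ k : ℤ, -(p.1 : ℤ) ≤ k ∧ k ≤ p.1 ∧
      sv L c (pentagonal (-(p.1 : ℤ)) + p.2 - pentagonal k) = 0 := by
  obtain ⟨j, r⟩ := p
  obtain ⟨hj, hr⟩ := hp
  simp only at hj hr ⊢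
  have hjl := j_le j
  set n := pentagonal (-(j : ℤ)) + r with hn
  by_contra hcon
  push Not at hcon
  have hK : KK 1 n = Icc (-(j : ℤ)) j := by
    ext k
    unfold KK
    rw [mem_filter, mem_Icc, mem_Icc, one_mul]
    constructor
    · rintro ⟨-, h⟩
      by_contra h1
      have h2 : k < -(j : ℤ) ∨ (j : ℤ) < k := by omega
      have h3 := gt_pent h2
      omega
    · rintro ⟨h1, h2⟩
      have h3 := le_pent h1 h2
      refine ⟨⟨?_, ?_⟩, ?_⟩ <;> omega
  have hs := hB L c n (by omega) (by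
    rintro k ⟨h1, h2⟩
    by_cases h3 : k < -(j : ℤ) ∨ (j : ℤ) < k
    · have h4 := gt_pent h3
      omega
    · have h4 := le_pent (j := j) (k := k) (by omega) (by omega)
      omega)
  rw [hK] at hs
  have h1 : ∑ k ∈ Icc (-(j : ℤ)) j, sv L c (n - pentagonal k) = ∑ k ∈ Icc (-(j : ℤ)) j, (1 : ZMod 2) := by
    apply sum_congr rfl
    intro k hk
    rw [mem_Icc] at hk
    have h2 : ∀ a : ZMod 2, a ≠ 0 → a = 1 := by decide
    exact h2 _ (hcon k hk.1 hk.2)
  rw [h1, sum_const, Int.card_Icc, nsmul_eq_mul, mul_one] at hs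
  have h2 : ((j : ℤ) + 1 - -(j : ℤ)).toNat = 2 * j + 1 := by omega
  rw [h2] at hs
  push_cast at hs
  have h3 : (2 : ZMod 2) = 0 := rfl
  rw [h3, zero_mul, zero_add] at hs
  exact one_ne_zero hs

theorem count (L J : ℕ) :
    (J : ℤ) * ((J : ℤ) - L) ≤ ((((range J).sigma (fun j => range (2 * (j + 1) + 1 - L))).card : ℕ) : ℤ) := by
  rw [card_sigma]
  simp only [card_range]
  induction J with
  | zero => simp
  | succ J ih =>
    rw [sum_range_succ]
    push_cast at ih ⊢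
    have h : ((2 * ((J : ℤ) + 1) + 1 - L) : ℤ) ≤ ((2 * (J + 1) + 1 - L : ℕ) : ℤ) := by omega
    nlinarith

end D0

open D0 in
theorem sd0 : SB1 → SD0 := by
  intro hB L c
  refine ⟨(4 * L + 4) ^ 2, fun x hx => ?_⟩
  obtain ⟨s, hs⟩ : ∃ s, s = Nat.sqrt x := ⟨_, rfl⟩
  obtain ⟨J, hJ⟩ : ∃ J, J = s / 2 := ⟨_, rfl⟩
  have hs1 : 4 * L + 4 ≤ s := by rw [hs]; exact Nat.le_sqrt'.2 hx
  have hs2 : s ^ 2 ≤ x := by rw [hs]; exact Nat.sqrt_le' x
  have hs3 : x < (s + 1) ^ 2 := by rw [hs]; exact Nat.lt_succ_sqrt' x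
  have hJ1 : 2 * L + 2 ≤ J := by omega
  have hJ2 : 2 * J ≤ s := by omega
  have hJ3 : s ≤ 2 * J + 1 := by omega
  have hkey := key hB L c
  choose! k hk using hkey
  have hcard : ((range J).sigma (fun j => range (2 * (j + 1) + 1 - L))).card ≤
      (((range (x + 1)).filter (fun n => sv L c n = 0)) ×ˢ Icc (-(J : ℤ)) J).card := by
    apply card_le_card_of_injOn (fun p => (pentagonal (-((p.1 + 1 : ℕ) : ℤ)) + p.2 -
      pentagonal (k (p.1 + 1, p.2)), k (p.1 + 1, p.2)))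
    · rintro ⟨i, r⟩ hp
      rw [mem_coe, mem_sigma, mem_range, mem_range] at hp
      simp only at hp
      obtain ⟨h1, h2, h3⟩ := hk (i + 1, r) ⟨by simp, by simp only; omega⟩
      simp only at h1 h2 h3
      rw [mem_coe, mem_product, mem_filter, mem_range, mem_Icc]
      simp only
      refine ⟨⟨?_, h3⟩, ?_, ?_⟩
      · have h4 := two_mul_natCast_pentagonal_neg ((i + 1 : ℕ) : ℤ)
        have h5 : (pentagonal (-((i + 1 : ℕ) : ℤ)) : ℤ) + r ≤ x := by
          have h6 : (r : ℤ) ≤ 2 * ((i + 1 : ℕ) : ℤ) := by omega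
          have h7 : ((i + 1 : ℕ) : ℤ) ≤ J := by omega
          have h8 : (2 * (J : ℤ)) ^ 2 ≤ x := by
            have h9 : (2 * J) ^ 2 ≤ x := le_trans (Nat.pow_le_pow_left hJ2 2) hs2
            exact_mod_cast h9
          have h9 : (2 : ℤ) ≤ J := by omega
          have h10 : (0 : ℤ) ≤ ((i + 1 : ℕ) : ℤ) := by omega
          nlinarith
        omega
      · omega
      · omega
    · rintro ⟨i, r⟩ hp ⟨i', r'⟩ hp' he
      rw [mem_coe, mem_sigma, mem_range, mem_range] at hp hp'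
      simp only [Prod.mk.injEq] at hp hp' he
      obtain ⟨he1, he2⟩ := he
      obtain ⟨h1, h2, -⟩ := hk (i + 1, r) ⟨by simp, by simp only; omega⟩
      obtain ⟨h1', h2', -⟩ := hk (i' + 1, r') ⟨by simp, by simp only; omega⟩
      simp only at h1 h2 h1' h2'
      have h3 := le_pent h1 h2
      have h3' := le_pent h1' h2'
      rw [he2] at he1 h3
      have h4 : pentagonal (-((i + 1 : ℕ) : ℤ)) + r = pentagonal (-((i' + 1 : ℕ) : ℤ)) + r' := by
        omega
      have h5 : i = i' := by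
        rcases lt_trichotomy i i' with h | h | h
        · have := sep (show i + 1 < i' + 1 by omega)
          omega
        · exact h
        · have := sep (show i' + 1 < i + 1 by omega)
          omega
      subst h5
      have h6 : r = r' := by omega
      rw [h6]
  rw [card_product, Int.card_Icc] at hcard
  have h2 : ((J : ℤ) + 1 - -(J : ℤ)).toNat = 2 * J + 1 := by omega
  rw [h2] at hcard
  have h3 := count L J
  set Z := ((range (x + 1)).filter (fun n => sv L c n = 0)).card with hZ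
  have h4 : (J : ℤ) * ((J : ℤ) - L) ≤ (Z : ℤ) * (2 * J + 1) := by
    refine h3.trans ?_
    exact_mod_cast hcard
  have h5 : ((2 : ℤ) * J + 2) ≤ 8 * Z := by
    have h6 : (2 * (L : ℤ) + 2) ≤ J := by exact_mod_cast hJ1
    have h7 : (0 : ℤ) ≤ L := by positivity
    have h8 : ((2 : ℤ) * J + 2) * (2 * J + 1) ≤ (8 * Z) * (2 * J + 1) := by nlinarith
    exact le_of_mul_le_mul_right h8 (by positivity)
  have h6 : Real.sqrt x ≤ s + 1 := by
    rw [Real.sqrt_le_left (by positivity)]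
    exact_mod_cast hs3.le
  have h7 : ((2 : ℝ) * J + 2) ≤ 8 * Z := by exact_mod_cast h5
  have h8 : (s : ℝ) ≤ 2 * J + 1 := by exact_mod_cast hJ3
  linarith

end Pool.Agent.TH693.CT
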