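import Pool.Agent.TH693.CT.Stm

set_option autoImplicit false

/-!
# A nonzero pattern is `1` at least `x ^ (1/2 - ε)` times
-/

namespace Pool.Agent.TH693.CT.D1

open Finset Filter Topology Pool.Agent.TH693.CT

lemma pent_sq (k : ℤ) : 24 * (pentagonal k : ℤ) + 1 = (6 * k - 1) ^ 2 := by
  have h := two_mul_natCast_pentagonal k
  linear_combination 12 * h

lemma le_pent {m : ℕ} (hm : 1 ≤ m) : (m : ℤ) ≤ pentagonal (m : ℤ) := by
  have h := two_mul_natCast_pentagonal (m : ℤ)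
  have h1 : (1 : ℤ) ≤ m := by exact_mod_cast hm
  nlinarith

/-- gaps between the pentagonal numbers -/
lemma gap {L m : ℕ} (hm : 2 * L + 1 ≤ m) {k : ℤ} (hk : k ≠ m) :
    (L : ℤ) < |(pentagonal k : ℤ) - pentagonal (m : ℤ)| := by
  have h1 := pent_sq k
  have h2 := pent_sq (m : ℤ)
  have hm' : 2 * (L : ℤ) + 1 ≤ m := by exact_mod_cast hm
  have hL : (0 : ℤ) ≤ L := by positivity
  have e : 24 * ((pentagonal k : ℤ) - pentagonal (m : ℤ)) =
      (6 * (k - m)) * (6 * (k + m) - 2) := by linear_combination h1 - h2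
  rcases lt_or_gt_of_ne hk with h | h
  · -- k < m
    have h3 : k + 1 ≤ m := h
    by_cases h4 : 1 ≤ k + m
    · have h5 : (0 : ℤ) ≤ 6 * (k + m) - 2 := by linarith
      have h6 : (pentagonal k : ℤ) - pentagonal (m : ℤ) < - L := by
        by_cases h7 : 0 ≤ k
        · nlinarith
        · push Not at h7
          nlinarith
      rw [lt_abs]
      right; linarith
    · push Not at h4
      have h5 : k + m ≤ 0 := by linarith
      have h6 : (L : ℤ) < (pentagonal k : ℤ) - pentagonal (m : ℤ) := by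
        nlinarith
      exact lt_of_lt_of_le h6 (le_abs_self _)
  · have h3 : (m : ℤ) + 1 ≤ k := h
    have h6 : (L : ℤ) < (pentagonal k : ℤ) - pentagonal (m : ℤ) := by
      nlinarith
    exact lt_of_lt_of_le h6 (le_abs_self _)

/-- the ones of the pattern -/
noncomputable def ones (L : ℕ) (c : Fin (L + 1) → ZMod 2) (x : ℕ) : Finset ℕ :=
  (range (x + 1)).filter (fun n => sv L c n = 1)

/-- the values `d` of `pentagonal m - 2 * pentagonal k` -/
noncomputable def TT (L : ℕ) (c : Fin (L + 1) → ZMod 2) (i0 : Fin (L + 1)) (x : ℕ) : Finset ℤ :=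
  Icc (-(L : ℤ)) L ∪ (ones L c x).image (fun s : ℕ => (s : ℤ) + (i0 : ℕ))

lemma key (hB : SB2) {L : ℕ} {c : Fin (L + 1) → ZMod 2} {i0 : Fin (L + 1)} (hc : c i0 = 1)
    {x m : ℕ} (h1 : 2 * L + 1 ≤ m) (h2 : pentagonal (m : ℤ) ≤ x) :
    ∃ (d k : ℤ), d ∈ TT L c i0 x ∧ (pentagonal (m : ℤ) : ℤ) - 2 * pentagonal k = d := by
  have hi : (i0 : ℕ) ≤ L := Nat.lt_succ_iff.1 i0.2
  have hp := le_pent (m := m) (by omega)
  have hp' : m ≤ pentagonal (m : ℤ) := by exact_mod_cast hp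
  obtain ⟨n, hn⟩ : ∃ n : ℕ, n + (i0 : ℕ) = pentagonal (m : ℤ) :=
    ⟨pentagonal (m : ℤ) - i0, by omega⟩
  by_cases hbad : ∃ k : ℤ, n < 2 * pentagonal k ∧ 2 * pentagonal k ≤ n + L
  · obtain ⟨k, hk1, hk2⟩ := hbad
    refine ⟨_, k, ?_, rfl⟩
    unfold TT
    rw [mem_union]
    left
    rw [mem_Icc]
    constructor
    · have : (2 * pentagonal k : ℤ) ≤ n + L := by exact_mod_cast hk2
      have h3 : (n : ℤ) + (i0 : ℕ) = pentagonal (m : ℤ) := by exact_mod_cast hn
      have h4 : (0 : ℤ) ≤ (i0 : ℕ) := by positivity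
      linarith
    · have : (n : ℤ) < 2 * pentagonal k := by exact_mod_cast hk1
      have h3 : (n : ℤ) + (i0 : ℕ) = pentagonal (m : ℤ) := by exact_mod_cast hn
      have h4 : ((i0 : ℕ) : ℤ) ≤ L := by exact_mod_cast hi
      linarith
  · have hs := hB L c i0 hc (m : ℤ) n hn (fun k hk => hbad ⟨k, hk⟩) (by
      intro k hk hk2
      have h3 := gap h1 hk
      have h4 : (n : ℤ) ≤ pentagonal k := by exact_mod_cast hk2.1
      have h5 : (pentagonal k : ℤ) ≤ n + L := by exact_mod_cast hk2.2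
      have h6 : (n : ℤ) + (i0 : ℕ) = pentagonal (m : ℤ) := by exact_mod_cast hn
      have h7 : ((i0 : ℕ) : ℤ) ≤ L := by exact_mod_cast hi
      have h8 : (0 : ℤ) ≤ (i0 : ℕ) := by positivity
      have h9 : |(pentagonal k : ℤ) - pentagonal (m : ℤ)| ≤ L := by
        rw [abs_le]
        constructor <;> linarith
      linarith)
    obtain ⟨k, hk, hne⟩ : ∃ k ∈ KK 2 n, sv L c (n - 2 * pentagonal k) ≠ 0 := by
      apply Finset.exists_ne_zero_of_sum_ne_zero
      rw [hs]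
      decide
    have hk2 : 2 * pentagonal k ≤ n := (mem_filter.1 hk).2
    have hone : ∀ a : ZMod 2, a ≠ 0 → a = 1 := by decide
    refine ⟨((n - 2 * pentagonal k : ℕ) : ℤ) + (i0 : ℕ), k, ?_, ?_⟩
    · unfold TT
      rw [mem_union]
      right
      rw [mem_image]
      refine ⟨n - 2 * pentagonal k, ?_, rfl⟩
      unfold ones
      rw [mem_filter, mem_range]
      exact ⟨by omega, hone _ hne⟩
    · rw [Nat.cast_sub hk2]
      have h6 : (n : ℤ) + (i0 : ℕ) = pentagonal (m : ℤ) := by exact_mod_cast hn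
      push_cast
      linarith

lemma TT_card (L : ℕ) (c : Fin (L + 1) → ZMod 2) (i0 : Fin (L + 1)) (x : ℕ) :
    (TT L c i0 x).card ≤ 2 * L + 1 + (ones L c x).card := by
  unfold TT
  refine (card_union_le _ _).trans ?_
  refine add_le_add ?_ card_image_le
  rw [Int.card_Icc]
  omega

lemma TT_ge {L : ℕ} {c : Fin (L + 1) → ZMod 2} {i0 : Fin (L + 1)} {x : ℕ} {d : ℤ}
    (h : d ∈ TT L c i0 x) : -(L : ℤ) ≤ d := by
  unfold TT at h
  rw [mem_union] at h
  rcases h with h | h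
  · exact (mem_Icc.1 h).1
  · obtain ⟨s, _, rfl⟩ := mem_image.1 h
    have h1 : (0 : ℤ) ≤ (s : ℤ) := by positivity
    have h2 : (0 : ℤ) ≤ (i0 : ℕ) := by positivity
    have h3 : (0 : ℤ) ≤ L := by positivity
    linarith

/-- the count -/
lemma count (hB : SB2) {L : ℕ} {c : Fin (L + 1) → ZMod 2} {i0 : Fin (L + 1)} (hc : c i0 = 1)
    {x J : ℕ} (hJ : ∀ m : ℕ, m ≤ J → pentagonal (m : ℤ) ≤ x) {N : ℕ}
    (hN : ∀ D : ℤ, Odd D → (Sol D (6 * J + 24 * L + 6)).card ≤ N) :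
    J ≤ 2 * L + N * (2 * L + 1 + (ones L c x).card) := by
  classical
  have hk : ∀ m : ℕ, m ∈ Icc (2 * L + 1) J → ∃ (d k : ℤ), d ∈ TT L c i0 x ∧
      (pentagonal (m : ℤ) : ℤ) - 2 * pentagonal k = d := fun m hm =>
    key hB hc (mem_Icc.1 hm).1 (hJ m (mem_Icc.1 hm).2)
  have hk' : ∀ m : ℕ, ∃ (d k : ℤ), m ∈ Icc (2 * L + 1) J → (d ∈ TT L c i0 x ∧
      (pentagonal (m : ℤ) : ℤ) - 2 * pentagonal k = d) := by
    intro m
    by_cases hm : m ∈ Icc (2 * L + 1) J
    · obtain ⟨d, k, h⟩ := hk m hm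
      exact ⟨d, k, fun _ => h⟩
    · exact ⟨0, 0, fun h => absurd h hm⟩
  choose f g hfg using hk'
  have h1 : (Icc (2 * L + 1) J).card ≤ N * (TT L c i0 x).card := by
    refine card_le_mul_card_image_of_maps_to (f := f) (fun m hm => (hfg m hm).1) N ?_
    intro D hD
    refine le_trans ?_ (hN (24 * D - 1) ⟨12 * D - 1, by ring⟩)
    refine card_le_card_of_injOn (fun m : ℕ => (6 * (m : ℤ) - 1, 6 * g m - 1)) ?_ ?_
    · intro m hm
      rw [mem_coe, mem_filter] at hm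
      obtain ⟨hm1, hm2⟩ := hm
      have h2 := (hfg m hm1).2
      rw [hm2] at h2
      have h3 := pent_sq (m : ℤ)
      have h4 := pent_sq (g m)
      have h5 := TT_ge hD
      have h6 : (m : ℤ) ≤ J := by exact_mod_cast (mem_Icc.1 hm1).2
      have h7 : (1 : ℤ) ≤ m := by
        have := (mem_Icc.1 hm1).1
        exact_mod_cast (by omega : 1 ≤ m)
      have hL : (0 : ℤ) ≤ L := by positivity
      have e : (6 * (m : ℤ) - 1) ^ 2 - 2 * (6 * g m - 1) ^ 2 = 24 * D - 1 := by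
        rw [← h3, ← h4, ← h2]; ring
      have h8 : (6 * g m - 1) ^ 2 ≤ (6 * (J : ℤ) + 24 * L + 6) ^ 2 := by
        have h9 : (6 * (m : ℤ) - 1) ^ 2 ≤ (6 * (J : ℤ)) ^ 2 := by
          apply pow_le_pow_left₀ <;> linarith
        nlinarith [sq_nonneg (6 * g m - 1), mul_nonneg hL (by linarith : (0 : ℤ) ≤ J)]
      have h9 := abs_le_of_sq_le_sq' h8 (by linarith)
      rw [mem_coe]
      unfold Sol
      rw [mem_filter, mem_product, mem_Icc, mem_Icc]
      refine ⟨⟨⟨?_, ?_⟩, ⟨?_, ?_⟩⟩, e⟩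
      · push_cast; linarith
      · push_cast; linarith
      · push_cast; linarith [h9.1]
      · push_cast; linarith [h9.2]
    · intro m _ m' _ h
      have := congrArg Prod.fst h
      simp only at this
      have h2 : (m : ℤ) = m' := by linarith
      exact_mod_cast h2
  have h2 := TT_card L c i0 x
  have h3 : (Icc (2 * L + 1) J).card = J + 1 - (2 * L + 1) := Nat.card_Icc _ _
  have h4 : N * (TT L c i0 x).card ≤ N * (2 * L + 1 + (ones L c x).card) :=
    Nat.mul_le_mul_left _ h2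
  omega

lemma asym {K ε : ℝ} (hε : 0 < ε) (hε2 : ε ≤ 1 / 2) (L : ℝ) :
    ∀ᶠ y : ℝ in atTop, K * (y ^ (1 - ε) + (2 * L + 1) * y ^ ε) + (1 + 2 * L) ≤ y / 2 := by
  have t1 := tendsto_rpow_neg_atTop hε
  have t2 := tendsto_rpow_neg_atTop (show 0 < 1 - ε by linarith)
  have t3 := tendsto_rpow_neg_atTop (show (0 : ℝ) < 1 by norm_num)
  have t : Tendsto (fun y : ℝ => K * (y ^ (-ε) + (2 * L + 1) * y ^ (-(1 - ε))) +
      (1 + 2 * L) * y ^ (-(1 : ℝ))) atTop (𝓝 0) := by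
    have := ((t1.add (t2.const_mul (2 * L + 1))).const_mul K).add (t3.const_mul (1 + 2 * L))
    simpa using this
  have h1 : ∀ᶠ y : ℝ in atTop, K * (y ^ (-ε) + (2 * L + 1) * y ^ (-(1 - ε))) +
      (1 + 2 * L) * y ^ (-(1 : ℝ)) ≤ 1 / 2 :=
    (t.eventually_lt_const (by norm_num : (0 : ℝ) < 1 / 2)).mono fun y hy => hy.le
  filter_upwards [h1, eventually_gt_atTop 0] with y hy hy0
  have e1 : y ^ (1 - ε) = y * y ^ (-ε) := by
    rw [sub_eq_add_neg, Real.rpow_add hy0, Real.rpow_one]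
  have e2 : y ^ ε = y * y ^ (-(1 - ε)) := by
    have : ε = 1 + (-(1 - ε)) := by ring
    conv_lhs => rw [this, Real.rpow_add hy0, Real.rpow_one]
  have e3 : (1 + 2 * L) = y * ((1 + 2 * L) * y ^ (-(1 : ℝ))) := by
    rw [Real.rpow_neg_one]
    field_simp
  rw [e1, e2, e3]
  have := mul_le_mul_of_nonneg_left hy hy0.le
  calc _ = y * (K * (y ^ (-ε) + (2 * L + 1) * y ^ (-(1 - ε))) +
      (1 + 2 * L) * y ^ (-(1 : ℝ))) := by ring
    _ ≤ _ := this.trans (by linarith)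

end Pool.Agent.TH693.CT.D1

namespace Pool.Agent.TH693.CT

open Finset Filter Topology D1

theorem sd1 : SB2 → SC → SD1 := by
  intro hB hC L c hc ε hε
  obtain ⟨i0, hi0⟩ : ∃ i0, c i0 = 1 := by
    by_contra h
    push Not at h
    apply hc
    funext i
    have : ∀ a : ZMod 2, a ≠ 1 → a = 0 := by decide
    exact this _ (h i)
  set e := min ε (1 / 2) with he
  have he0 : 0 < e := lt_min hε (by norm_num)
  have he2 : e ≤ 1 / 2 := min_le_right _ _
  obtain ⟨K, hK, hKS⟩ := hC e he0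
  have ha := asym (K := K * (24 * L + 9 : ℝ) ^ e) he0 he2 (L : ℝ)
  have hsq : Tendsto (fun x : ℕ => √(x : ℝ)) atTop atTop :=
    Real.tendsto_sqrt_atTop.comp tendsto_natCast_atTop_atTop
  have hev := (hsq.eventually ha).and (eventually_ge_atTop 1)
  obtain ⟨x0, hx0⟩ := eventually_atTop.1 hev
  refine ⟨x0, fun x hx => ?_⟩
  obtain ⟨hy, hx1⟩ := hx0 x hx
  have hxr : (1 : ℝ) ≤ x := by exact_mod_cast hx1
  set y := √(x : ℝ) with hyd
  have hy1 : 1 ≤ y := Real.one_le_sqrt.2 hxr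
  have hy0 : 0 < y := by linarith
  have hyx : y ^ 2 = x := Real.sq_sqrt (by linarith)
  set J := Nat.sqrt x / 2 with hJd
  have hs1 : (Nat.sqrt x : ℝ) ≤ y := Real.nat_sqrt_le_real_sqrt
  have hs2 : y ≤ Nat.sqrt x + 1 := Real.real_sqrt_le_nat_sqrt_succ
  have hJ1 : (J : ℝ) ≤ y / 2 := by
    have : 2 * J ≤ Nat.sqrt x := by omega
    have : (2 * J : ℝ) ≤ Nat.sqrt x := by exact_mod_cast this
    linarith
  have hJ2 : y / 2 - 1 ≤ J := by
    have : Nat.sqrt x ≤ 2 * J + 1 := by omega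
    have : (Nat.sqrt x : ℝ) ≤ 2 * J + 1 := by exact_mod_cast this
    linarith
  have hJx : ∀ m : ℕ, m ≤ J → pentagonal (m : ℤ) ≤ x := by
    intro m hm
    have h1 := two_mul_natCast_pentagonal (m : ℤ)
    have h2 : 2 * m ≤ Nat.sqrt x := by omega
    have h3 : (2 * m) * (2 * m) ≤ x := (Nat.mul_le_mul h2 h2).trans (Nat.sqrt_le x)
    have h4 : ((2 * m) * (2 * m) : ℤ) ≤ x := by exact_mod_cast h3
    have h5 : (0 : ℤ) ≤ m := by positivity
    have h6 : (pentagonal (m : ℤ) : ℤ) ≤ x := by nlinarith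
    exact_mod_cast h6
  set A := 6 * J + 24 * L + 6 with hA
  have hA1 : 1 ≤ A := by omega
  have hAr : (A : ℝ) ≤ (24 * L + 9) * y := by
    have : (A : ℝ) = 6 * J + 24 * L + 6 := by rw [hA]; push_cast; ring
    rw [this]
    have hL : (0 : ℝ) ≤ L := by positivity
    nlinarith
  set N := ⌊K * (A : ℝ) ^ e⌋₊ with hN
  have hcnt := count hB hi0 hJx (N := N) (fun D hD => Nat.le_floor (hKS D A hD hA1))
  have hNr : (N : ℝ) ≤ K * (24 * L + 9 : ℝ) ^ e * y ^ e := by
    have h1 : (N : ℝ) ≤ K * (A : ℝ) ^ e := Nat.floor_le (by positivity)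
    have h2 : (A : ℝ) ^ e ≤ ((24 * L + 9) * y) ^ e :=
      Real.rpow_le_rpow (by positivity) hAr he0.le
    rw [Real.mul_rpow (by positivity) hy0.le] at h2
    calc (N : ℝ) ≤ K * (A : ℝ) ^ e := h1
      _ ≤ K * ((24 * L + 9 : ℝ) ^ e * y ^ e) := mul_le_mul_of_nonneg_left h2 hK.le
      _ = _ := by ring
  have hcr : (J : ℝ) ≤ 2 * L + N * (2 * L + 1 + ((ones L c x).card : ℝ)) := by exact_mod_cast hcnt
  change (x : ℝ) ^ (1 / 2 - ε) ≤ ((ones L c x).card : ℝ)
  set C := K * (24 * L + 9 : ℝ) ^ e with hCd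
  have hC0 : 0 < C := by positivity
  have hye : 0 < y ^ e := Real.rpow_pos_of_pos hy0 _
  -- lower bound
  have hlow : y ^ (1 - 2 * e) ≤ ((ones L c x).card : ℝ) := by
    by_contra hcon
    push Not at hcon
    have h1 : (N : ℝ) * (2 * L + 1 + ((ones L c x).card : ℝ)) <
        C * y ^ e * (2 * L + 1 + y ^ (1 - 2 * e)) := by
      have hL : (0 : ℝ) ≤ L := by positivity
      calc (N : ℝ) * (2 * L + 1 + ((ones L c x).card : ℝ)) ≤
          C * y ^ e * (2 * L + 1 + ((ones L c x).card : ℝ)) :=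
            mul_le_mul_of_nonneg_right hNr (by positivity)
        _ < C * y ^ e * (2 * L + 1 + y ^ (1 - 2 * e)) := by
            apply mul_lt_mul_of_pos_left _ (by positivity)
            linarith
    have h2 : C * y ^ e * (2 * L + 1 + y ^ (1 - 2 * e)) =
        C * (y ^ (1 - e) + (2 * L + 1) * y ^ e) := by
      have h3 : y ^ (1 - e) = y ^ e * y ^ (1 - 2 * e) := by
        rw [← Real.rpow_add hy0]; congr 1; ring
      rw [h3]; ring
    rw [h2] at h1
    linarith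
  have hfin : (x : ℝ) ^ (1 / 2 - ε) ≤ y ^ (1 - 2 * e) := by
    have h1 : (x : ℝ) ^ (1 / 2 - ε) ≤ (x : ℝ) ^ (1 / 2 - e) :=
      Real.rpow_le_rpow_of_exponent_le hxr (by have := min_le_left ε (1 / 2 : ℝ); linarith)
    refine h1.trans (le_of_eq ?_)
    rw [← hyx, ← Real.rpow_natCast, ← Real.rpow_mul hy0.le]
    congr 1
    push_cast
    ring
  exact hfin.trans hlow

end Pool.Agent.TH693.CT
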