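import Pool.Agent.TH693.CT.Stm
import Pool.Agent.H510R2.Div

set_option autoImplicit false

/-!
# All solutions of `a^2 - 2 b^2 = D`
-/

namespace Pool.Agent.TH693.CT

open Finset

namespace Sc3Aux

lemma card_le (h2 : SC2) (D : ℤ) (A : ℕ) (hD : Odd D) :
    (Sol D A).card ≤ D.natAbs.divisors.card * (D.natAbs.divisors.card * (Sol 1 (3 * A ^ 2)).card) := by
  classical
  have hD0 : D ≠ 0 := by
    rintro rfl
    exact absurd hD (by decide)
  have hDn : D.natAbs ≠ 0 := Int.natAbs_ne_zero.2 hD0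
  set T : ℕ → Finset (ℤ × ℤ) := fun g =>
    if ((g : ℤ) ^ 2 ∣ D) then (Prim (D / (g : ℤ) ^ 2) A).image
      (fun p => (p.1 * (g : ℤ), p.2 * (g : ℤ))) else ∅ with hT
  have hTc : ∀ g, (T g).card ≤ D.natAbs.divisors.card * (Sol 1 (3 * A ^ 2)).card := by
    intro g
    simp only [hT]
    split_ifs with hg
    · refine card_image_le.trans ?_
      have hq : D / (g : ℤ) ^ 2 * (g : ℤ) ^ 2 = D := Int.ediv_mul_cancel hg
      have ho : Odd (D / (g : ℤ) ^ 2) := by
        rw [← hq] at hD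
        exact (Int.odd_mul.1 hD).1
      refine (h2 _ A ho).trans ?_
      apply Nat.mul_le_mul_right
      apply card_le_card
      apply Nat.divisors_subset_of_dvd hDn
      exact Int.natAbs_dvd_natAbs.2 ⟨_, hq.symm⟩
    · simp
  have hsub : Sol D A ⊆ D.natAbs.divisors.biUnion T := by
    rintro ⟨a, b⟩ hab
    simp only [Sol, mem_filter, mem_product, mem_Icc] at hab
    obtain ⟨⟨⟨ha1, ha2⟩, hb1, hb2⟩, hE⟩ := hab
    have hg0 : 0 < Int.gcd a b := by
      rw [Nat.pos_iff_ne_zero]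
      intro h0
      rw [Int.gcd_eq_zero_iff] at h0
      obtain ⟨rfl, rfl⟩ := h0
      exact hD0 (by rw [← hE]; norm_num)
    obtain ⟨a', b', h1, haa, hbb⟩ := Int.exists_gcd_one hg0
    set g := Int.gcd a b with hg
    have hgz : (1 : ℤ) ≤ g := by exact_mod_cast hg0
    have hDe : D = (a' ^ 2 - 2 * b' ^ 2) * (g : ℤ) ^ 2 := by
      rw [← hE, haa, hbb]
      ring
    have hdv : ((g : ℤ) ^ 2 ∣ D) := ⟨a' ^ 2 - 2 * b' ^ 2, by rw [hDe]; ring⟩
    have hqd : D / (g : ℤ) ^ 2 = a' ^ 2 - 2 * b' ^ 2 := by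
      rw [hDe]
      exact Int.mul_ediv_cancel _ (by positivity)
    have hbnd : ∀ u v : ℤ, u = v * g → -(A : ℤ) ≤ u → u ≤ A → -(A : ℤ) ≤ v ∧ v ≤ A := by
      intro u v huv h3 h4
      rw [huv] at h3 h4
      constructor
      · by_contra hc
        push Not at hc
        have hv : v < 0 := by
          have : (0 : ℤ) ≤ A := Int.natCast_nonneg A
          linarith
        nlinarith
      · by_contra hc
        push Not at hc
        have hv : 0 < v := by
          have : (0 : ℤ) ≤ A := Int.natCast_nonneg A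
          linarith
        nlinarith
    rw [mem_biUnion]
    refine ⟨g, ?_, ?_⟩
    · rw [Nat.mem_divisors]
      refine ⟨?_, hDn⟩
      have h3 : (g : ℤ) ∣ D := (Dvd.intro_left _ (by rw [pow_two] : (g : ℤ) * g = (g : ℤ) ^ 2)).trans hdv
      have h4 := Int.natAbs_dvd_natAbs.2 h3
      simpa using h4
    · simp only [hT]
      rw [if_pos hdv, mem_image]
      refine ⟨(a', b'), ?_, ?_⟩
      · simp only [Prim, Sol, mem_filter, mem_product, mem_Icc]
        exact ⟨⟨⟨hbnd a a' haa ha1 ha2, hbnd b b' hbb hb1 hb2⟩, hqd.symm⟩, h1⟩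
      · simp only [Prod.mk.injEq]
        exact ⟨haa.symm, hbb.symm⟩
  refine (card_le_card hsub).trans (card_biUnion_le.trans ?_)
  refine (sum_le_sum fun g _ => hTc g).trans ?_
  rw [sum_const, smul_eq_mul]

end Sc3Aux

theorem sc3 : SC1 → SC2 → SC := by
  intro h1 h2 ε hε
  obtain ⟨K, hK⟩ := h1
  obtain ⟨C0, hC0, hdiv⟩ := Pool.Agent.H510R2.divisor_bound (ε / 8) (by positivity)
  refine ⟨(K : ℝ) * C0 ^ 3 * (3 : ℝ) ^ (3 * (ε / 8)) + 1, by positivity, ?_⟩
  intro D A hD hA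
  have hAr : (1 : ℝ) ≤ A := by exact_mod_cast hA
  have hAe : (0 : ℝ) ≤ (A : ℝ) ^ ε := by positivity
  rcases (Sol D A).eq_empty_or_nonempty with h0 | ⟨⟨a, b⟩, hab⟩
  · rw [h0]
    simp only [card_empty, Nat.cast_zero]
    positivity
  have hD0 : D ≠ 0 := by
    rintro rfl
    exact absurd hD (by decide)
  have hDX : D.natAbs ≤ 3 * A ^ 2 := by
    simp only [Sol, mem_filter, mem_product, mem_Icc] at hab
    obtain ⟨⟨⟨ha1, ha2⟩, hb1, hb2⟩, hE⟩ := hab
    have e1 : a ^ 2 ≤ (A : ℤ) ^ 2 := sq_le_sq' ha1 ha2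
    have e2 : b ^ 2 ≤ (A : ℤ) ^ 2 := sq_le_sq' hb1 hb2
    have e3 : |D| ≤ 3 * (A : ℤ) ^ 2 := by
      rw [abs_le]
      constructor
      · nlinarith [sq_nonneg a, sq_nonneg b]
      · nlinarith [sq_nonneg a, sq_nonneg b]
    rw [Int.abs_eq_natAbs] at e3
    exact_mod_cast e3
  set X : ℕ := 3 * A ^ 2 with hX
  have hX1 : 1 ≤ X := by
    have : 1 ≤ A ^ 2 := Nat.one_le_pow _ _ hA
    omega
  set y : ℝ := C0 * (X : ℝ) ^ (ε / 8) with hy
  have hy0 : 0 ≤ y := by positivity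
  have hmono : ∀ n : ℕ, 1 ≤ n → n ≤ X → (n.divisors.card : ℝ) ≤ y := by
    intro n hn hnX
    refine (hdiv n hn).trans ?_
    apply mul_le_mul_of_nonneg_left _ hC0.le
    apply Real.rpow_le_rpow (Nat.cast_nonneg _) _ (by positivity)
    exact_mod_cast hnX
  have hd : (D.natAbs.divisors.card : ℝ) ≤ y :=
    hmono _ (Nat.one_le_iff_ne_zero.2 (Int.natAbs_ne_zero.2 hD0)) hDX
  have hl : ((Nat.log 2 X + 1 : ℕ) : ℝ) ≤ y := by
    have h3 := hmono (2 ^ Nat.log 2 X) Nat.one_le_two_pow (Nat.pow_log_le_self 2 (by omega))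
    rw [Nat.divisors_prime_pow Nat.prime_two, card_map, card_range] at h3
    exact h3
  have hS : ((Sol 1 X).card : ℝ) ≤ K * y := by
    have h3 : ((Sol 1 X).card : ℝ) ≤ (K : ℝ) * ((Nat.log 2 X + 1 : ℕ) : ℝ) := by
      exact_mod_cast hK X hX1
    exact h3.trans (mul_le_mul_of_nonneg_left hl (Nat.cast_nonneg _))
  have hc : ((Sol D A).card : ℝ) ≤ y * (y * (K * y)) := by
    have h3 : ((Sol D A).card : ℝ) ≤ (D.natAbs.divisors.card : ℝ) *
        ((D.natAbs.divisors.card : ℝ) * ((Sol 1 X).card : ℝ)) := by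
      exact_mod_cast Sc3Aux.card_le h2 D A hD
    refine h3.trans ?_
    apply mul_le_mul hd _ (by positivity) hy0
    exact mul_le_mul hd hS (by positivity) hy0
  have hXr : (X : ℝ) = 3 * (A : ℝ) ^ (2 : ℝ) := by
    rw [hX]
    push_cast
    rw [Real.rpow_two]
  have hy3 : y * (y * (K * y)) ≤ K * C0 ^ 3 * (3 : ℝ) ^ (3 * (ε / 8)) * (A : ℝ) ^ ε := by
    have h3 : y * (y * (K * y)) = K * C0 ^ 3 * ((X : ℝ) ^ (ε / 8)) ^ 3 := by
      rw [hy]
      ring
    have h4 : ((X : ℝ) ^ (ε / 8)) ^ 3 = (X : ℝ) ^ (3 * (ε / 8)) := by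
      rw [← Real.rpow_natCast, ← Real.rpow_mul (Nat.cast_nonneg _)]
      congr 1
      push_cast
      ring
    have h5 : (X : ℝ) ^ (3 * (ε / 8)) ≤ (3 : ℝ) ^ (3 * (ε / 8)) * (A : ℝ) ^ ε := by
      rw [hXr, Real.mul_rpow (by norm_num) (by positivity), ← Real.rpow_mul (by positivity)]
      apply mul_le_mul_of_nonneg_left _ (by positivity)
      apply Real.rpow_le_rpow_of_exponent_le hAr
      linarith
    rw [h3, h4, mul_assoc (_ * _) _ ((A : ℝ) ^ ε)]
    exact mul_le_mul_of_nonneg_left h5 (by positivity)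
  refine hc.trans (hy3.trans ?_)
  rw [add_mul, one_mul]
  linarith

end Pool.Agent.TH693.CT
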