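import Pool.Agent.TH693.CT.Stm

set_option autoImplicit false

/-!
# Counting the values of linear patterns of the partition function modulo 2: Euler's identity

Task CT-A (helper460).
-/

namespace Pool.Agent.TH693.CT

open PowerSeries Pool.Agent.H397R2.PP

/-- Convolution of the partition numbers with the pentagonal numbers times `M`. -/
theorem conv_pent (M n : ℕ) (hM : M ≠ 0) :
    ∑ k ∈ KK M n, pm (n - M * pentagonal k) =
      coeff n ((PowerSeries.mk fun n => (Fintype.card (Nat.Partition n) : ZMod 2)) *
        PowerSeries.expand M hM (pentagonalSeries (ZMod 2))) := by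
  set F : (ZMod 2)⟦X⟧ := PowerSeries.mk fun n => (Fintype.card (Nat.Partition n) : ZMod 2)
    with hF
  rw [KK, Finset.sum_filter, coeff_mul]
  rw [Finset.sum_congr rfl (g := fun p : ℕ × ℕ => ∑ j ∈ Finset.Icc (-(n : ℤ)) n,
    if p.2 = M * pentagonal j then coeff p.1 F else 0)]
  · rw [Finset.sum_comm]
    refine Finset.sum_congr rfl fun j _ => ?_
    symm
    split_ifs with hj
    · rw [Finset.sum_eq_single (n - M * pentagonal j, M * pentagonal j)]
      · simp [hF, pm]
      · rintro ⟨a, b⟩ hab hne
        rw [if_neg]
        intro hb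
        apply hne
        rw [Finset.HasAntidiagonal.mem_antidiagonal] at hab
        simp only at hb hab
        ext <;> simp <;> omega
      · intro h
        exact absurd (Finset.HasAntidiagonal.mem_antidiagonal.mpr (Nat.sub_add_cancel hj)) h
    · apply Finset.sum_eq_zero
      rintro ⟨a, b⟩ hab
      rw [Finset.HasAntidiagonal.mem_antidiagonal] at hab
      rw [if_neg]
      intro hb
      simp only at hb hab
      omega
  · rintro ⟨a, b⟩ hab
    rw [Finset.HasAntidiagonal.mem_antidiagonal] at hab
    simp only at hab ⊢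
    rw [coeff_expand_pent M hM n b (by omega), Finset.mul_sum]
    refine Finset.sum_congr rfl fun j _ => ?_
    split_ifs <;> simp

/-- Euler: `P E = 1`. -/
theorem sa1 : SA1 := by
  intro n hn
  have h := conv_pent 1 n one_ne_zero
  rw [← pow_eq_expand' 1 0 one_ne_zero (pow_zero 2).symm, pow_one,
    mk_card_mul_pentagonalSeries, coeff_one, if_neg (by omega)] at h
  simpa only [one_mul] using h

/-- `P E^2 = E`. -/
theorem conv_two (n : ℕ) :
    ∑ k ∈ KK 2 n, pm (n - 2 * pentagonal k) = coeff n (pentagonalSeries (ZMod 2)) := by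
  have h := conv_pent 2 n two_ne_zero
  rw [← pow_eq_expand' 2 1 two_ne_zero (pow_one 2).symm, pow_two, ← mul_assoc,
    mk_card_mul_pentagonalSeries, one_mul] at h
  exact h

theorem sa2 : SA2 := by
  refine ⟨fun m => ?_, fun n hn => ?_⟩
  · rw [conv_two, coeff_pentagonalSeries_pentagonal]
    rcases Int.even_or_odd m with he | ho
    · rw [Int.negOnePow_even m he]; rfl
    · rw [Int.negOnePow_odd m ho]; rfl
  · rw [conv_two]
    apply coeff_pentagonalSeries_eq_zero
    rintro ⟨j, hj⟩
    exact hn j hj

end Pool.Agent.TH693.CT
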