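import Pool.Agent.TH693.PP.Base

set_option autoImplicit false

/-!
# Counting the values of linear patterns of the partition function modulo 2: statements
-/

namespace Pool.Agent.TH693.CT

open Finset

/-- partition numbers modulo 2 -/
noncomputable def pm (n : ℕ) : ZMod 2 := (Fintype.card (Nat.Partition n) : ZMod 2)

/-- the pattern `∑ c_i p(n+i)` modulo 2 -/
noncomputable def sv (L : ℕ) (c : Fin (L + 1) → ZMod 2) (n : ℕ) : ZMod 2 :=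
  ∑ i : Fin (L + 1), c i * pm (n + i)

/-- the indices of the pentagonal numbers `g` with `M g ≤ n` -/
noncomputable def KK (M n : ℕ) : Finset ℤ := (Icc (-(n : ℤ)) n).filter (fun k => M * pentagonal k ≤ n)

/-- solutions of `a^2 - 2 b^2 = D` in a box -/
noncomputable def Sol (D : ℤ) (A : ℕ) : Finset (ℤ × ℤ) :=
  (Icc (-(A : ℤ)) A ×ˢ Icc (-(A : ℤ)) A).filter (fun p => p.1 ^ 2 - 2 * p.2 ^ 2 = D)

/-- primitive solutions -/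
noncomputable def Prim (D : ℤ) (A : ℕ) : Finset (ℤ × ℤ) := (Sol D A).filter (fun p => Int.gcd p.1 p.2 = 1)

/-- Euler: `P E = 1`. -/
def SA1 : Prop := ∀ n : ℕ, 1 ≤ n → ∑ k ∈ KK 1 n, pm (n - pentagonal k) = 0

/-- `P E^2 = E`. -/
def SA2 : Prop := (∀ m : ℤ, ∑ k ∈ KK 2 (pentagonal m), pm (pentagonal m - 2 * pentagonal k) = 1) ∧
  ∀ n : ℕ, (∀ m : ℤ, pentagonal m ≠ n) → ∑ k ∈ KK 2 n, pm (n - 2 * pentagonal k) = 0

def SB1 : Prop := ∀ (L : ℕ) (c : Fin (L + 1) → ZMod 2) (n : ℕ), 1 ≤ n →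
  (∀ k : ℤ, ¬ (n < pentagonal k ∧ pentagonal k ≤ n + L)) →
  ∑ k ∈ KK 1 n, sv L c (n - pentagonal k) = 0

def SB2 : Prop := ∀ (L : ℕ) (c : Fin (L + 1) → ZMod 2) (i0 : Fin (L + 1)), c i0 = 1 →
  ∀ (m : ℤ) (n : ℕ), n + i0 = pentagonal m →
  (∀ k : ℤ, ¬ (n < 2 * pentagonal k ∧ 2 * pentagonal k ≤ n + L)) →
  (∀ k : ℤ, k ≠ m → ¬ (n ≤ pentagonal k ∧ pentagonal k ≤ n + L)) →
  ∑ k ∈ KK 2 n, sv L c (n - 2 * pentagonal k) = 1

/-- number of units: `u^2 - 2 v^2 = 1` -/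
def SC1 : Prop := ∃ K : ℕ, ∀ U : ℕ, 1 ≤ U → (Sol 1 U).card ≤ K * (Nat.log 2 U + 1)

/-- primitive solutions: at most (number of divisors) times (number of units) -/
def SC2 : Prop := ∀ (D : ℤ) (A : ℕ), Odd D →
  (Prim D A).card ≤ D.natAbs.divisors.card * (Sol 1 (3 * A ^ 2)).card

/-- all solutions -/
def SC : Prop := ∀ ε : ℝ, 0 < ε → ∃ K : ℝ, 0 < K ∧ ∀ (D : ℤ) (A : ℕ), Odd D → 1 ≤ A →
  ((Sol D A).card : ℝ) ≤ K * (A : ℝ) ^ ε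

/-- zeros of a pattern -/
def SD0 : Prop := ∀ (L : ℕ) (c : Fin (L + 1) → ZMod 2), ∃ x0 : ℕ, ∀ x : ℕ, x0 ≤ x →
  Real.sqrt x / 8 ≤ (((range (x + 1)).filter (fun n => sv L c n = 0)).card : ℝ)

/-- ones of a pattern -/
def SD1 : Prop := ∀ (L : ℕ) (c : Fin (L + 1) → ZMod 2), c ≠ 0 → ∀ ε : ℝ, 0 < ε →
  ∃ x0 : ℕ, ∀ x : ℕ, x0 ≤ x →
  (x : ℝ) ^ (1 / 2 - ε) ≤ (((range (x + 1)).filter (fun n => sv L c n = 1)).card : ℝ)

end Pool.Agent.TH693.CT
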